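import Pool.Agent.Q33.Fam.Final
import Pool.Agent.Q33.Fam.X5
import Pool.Agent.Q33.Fam.W5

set_option autoImplicit false

namespace Pool.Agent.Results.MP_6a8d80_nt.Five

open Finset Pool.Agent.Q33.Fam

lemma ft0 (N : ℕ) : W5.ft 0 N = (((5 : ℤ) * N + 1) * w2 N : ℤ) := by
  unfold W5.ft
  push_cast
  rw [w2_fact]
  simp only [mul_zero, zero_add, pow_zero]
  rw [Nat.factorial_succ (2 * N)]
  push_cast
  have h1 : (N.factorial : ℚ) ≠ 0 := by exact_mod_cast N.factorial_ne_zero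
  have h2 : ((2 * N).factorial : ℚ) ≠ 0 := by exact_mod_cast Nat.factorial_ne_zero _
  have h3 : (2 * (N : ℚ) + 1) ≠ 0 := by positivity
  field_simp
  ring

lemma gtQ (k M : ℕ) : Q 6 (((k + M + 1 : ℕ) : ℤ) * cb (k + M + 1)) (W5.gt k M) := by
  apply Q_ratio0 ((-3) ^ k * (-32)) _ _ (X5 k M)
  unfold W5.gt
  push_cast
  rw [cb_fact]
  simp only [fp_cons, fp_nil]
  have e1 : 2 * k + 2 * M + 2 = 2 * (k + M + 1) := by ring
  rw [e1]
  push_cast
  have h1 : ((k + M + 1).factorial : ℚ) ≠ 0 := by exact_mod_cast Nat.factorial_ne_zero _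
  have h2 : ((2 * (k + M + 1)).factorial : ℚ) ≠ 0 := by exact_mod_cast Nat.factorial_ne_zero _
  have h3 : (M.factorial : ℚ) ≠ 0 := by exact_mod_cast Nat.factorial_ne_zero _
  have h5 : ((2 * k + M + 1).factorial : ℚ) ≠ 0 := by exact_mod_cast Nat.factorial_ne_zero _
  have h6 : ((3 * k + 2 * M + 2).factorial : ℚ) ≠ 0 := by exact_mod_cast Nat.factorial_ne_zero _
  rw [add_zero]
  field_simp

lemma hQ (n : ℕ) : Q 6 ((n : ℤ) * cb n) (((-192 : ℤ) : ℚ) * (S 5 1 (-192) w2 n : ℤ)) := by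
  rw [← tele1 (-192) 5 1 w2 W5.ft W5.gt ?_ ?_ ft0 n]
  · apply Q_sum
    intro k hk
    have e : k + (n - 1 - k) + 1 = n := by omega
    have := gtQ k (n - 1 - k)
    rw [e] at this
    exact this
  · intro k M
    have := W5.Wgen k M
    push_cast
    exact this
  · intro k
    have := W5.Wb0 k
    push_cast
    exact this

/-- the numbers of the problem -/
noncomputable def a (n : ℕ) : ℚ :=
  (∑ k ∈ range n, (5 * (k : ℚ) + 1) * ((2 * k).choose k : ℚ) ^ 2 * ((3 * k).choose k : ℚ) * (-192) ^ (n - 1 - k)) /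
    (n * (2 * n + 1) * ((2 * n).choose n : ℚ))

lemma a_eq (n : ℕ) : a n = ((S 5 1 (-192) w2 n : ℤ) : ℚ) / ((1 * D n : ℤ) : ℚ) := by
  unfold a S D w2 cb
  push_cast
  rw [one_mul]
  congr 1
  apply sum_congr rfl
  intro k _
  ring

/-- For every `n ≥ 2`: if `2n+1` is not a power of 3 then `a n` is an integer; if `2n+1` is a power of 3 then
`3 a n` is an integer not divisible by 3. -/
theorem result : ∀ n : ℕ, 2 ≤ n →
    ((¬ ∃ m : ℕ, 2 * n + 1 = 3 ^ m) → ∃ z : ℤ, a n = z) ∧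
    ((∃ m : ℕ, 2 * n + 1 = 3 ^ m) → ∃ z : ℤ, 3 * a n = z ∧ ¬ (3 : ℤ) ∣ z) := by
  intro n hn
  obtain ⟨V, hV⟩ := V2
  obtain ⟨h1, h2⟩ := final6 5 1 (-192) (-96) (-64) w2 Y2 V 1 (by norm_num) (by norm_num) (by norm_num) (by norm_num)
    ⟨6, by norm_num⟩ (fun n _ => hQ n) w2_dvd (fun n h => hV n (by omega))
    ⟨1, by norm_num, by
      unfold D S w2 cb
      norm_num [sum_range_succ, Nat.choose]⟩ Y2_ne w2_Y Y2_h1 Y2_h2 n hn
  have hD := D_pos n (by omega)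
  rw [a_eq]
  constructor
  · intro h
    push Not at h
    obtain ⟨z, hz, _⟩ := rat_int _ _ (by omega) (h1 (Or.inl h))
    exact ⟨z, hz⟩
  · intro h
    obtain ⟨h3, h4⟩ := h2 h (by norm_num)
    exact rat_three _ _ 1 (by omega) h3 h4

end Pool.Agent.Results.MP_6a8d80_nt.Five
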